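import Pool.Agent.ROL.Defs

set_option autoImplicit false

namespace Pool.Agent.ROL

open MvPolynomial

variable {F : Type*} [Field F] [CharZero F] {n : ℕ}

theorem pderiv_aeval' {R : Type*} [CommSemiring R] {σ : Type*} (φ : Fin n → MvPolynomial σ R) (i : σ)
    (h : MvPolynomial (Fin n) R) :
    pderiv i (aeval φ h) = ∑ j, aeval φ (pderiv j h) * pderiv i (φ j) := by
  classical
  induction h using MvPolynomial.induction_on with
  | C a =>
    rw [aeval_C, algebraMap_eq, pderiv_C]
    symm
    refine Finset.sum_eq_zero fun j _ => ?_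
    rw [pderiv_C, map_zero, zero_mul]
  | add p q hp hq =>
    rw [map_add, map_add, hp, hq, ← Finset.sum_add_distrib]
    refine Finset.sum_congr rfl fun j _ => ?_
    rw [map_add, map_add, add_mul]
  | mul_X p l hp =>
    rw [map_mul, aeval_X, pderiv_mul, hp, Finset.sum_mul]
    have h1 : aeval φ p * pderiv i (φ l) =
        ∑ j, aeval φ p * (if j = l then pderiv i (φ j) else 0) := by
      rw [Finset.sum_eq_single l]
      · rw [if_pos rfl]
      · intro j _ hj
        rw [if_neg hj, mul_zero]
      · intro h
        exact absurd (Finset.mem_univ l) h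
    rw [h1, ← Finset.sum_add_distrib]
    refine Finset.sum_congr rfl fun j _ => ?_
    rw [pderiv_mul, map_add, map_mul, map_mul, aeval_X, pderiv_X, Pi.single_apply]
    by_cases hj : l = j
    · subst hj
      rw [if_pos rfl, if_pos rfl, map_one]
      ring
    · rw [if_neg hj, if_neg (Ne.symm hj), map_zero]
      ring

theorem exists_pderiv' {σ : Type*} (G : Fin n → MvPolynomial σ F) (f : MvPolynomial (Fin n) F)
    (h : ∀ c, aeval G f ≠ C c) : ∃ i, aeval G (pderiv i f) ≠ 0 := by
  classical
  by_contra hcon
  push Not at hcon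
  have h1 : ∀ r, pderiv r (aeval G f) = 0 := by
    intro r
    rw [pderiv_aeval']
    exact Finset.sum_eq_zero fun j _ => by rw [hcon j, zero_mul]
  apply h (coeff 0 (aeval G f))
  ext s
  rw [coeff_C]
  by_cases hs : 0 = s
  · rw [if_pos hs, hs]
  · rw [if_neg hs]
    obtain ⟨r, hr⟩ : ∃ r, s r ≠ 0 := by
      by_contra hc
      push Not at hc
      exact hs (Finsupp.ext fun r => (hc r).symm)
    have h2 := congrArg (coeff (s - Finsupp.single r 1)) (h1 r)
    rw [coeff_pderiv, coeff_zero] at h2
    have h3 : s - Finsupp.single r 1 + Finsupp.single r 1 = s := by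
      refine tsub_add_cancel_of_le ?_
      rw [Finsupp.single_le_iff]
      omega
    rw [h3] at h2
    rcases mul_eq_zero.1 h2 with h4 | h4
    · exact h4
    · exfalso
      exact Nat.cast_add_one_ne_zero _ h4

end Pool.Agent.ROL
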