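import Pool.Agent.ROL.Ord
import Pool.Agent.ROL.Pd

/-!
MODULE ROL-Leaf.  Leaves move.
-/

set_option autoImplicit false

namespace Pool.Agent.ROL

open MvPolynomial

variable {F : Type*} [Field F] [CharZero F] {n : ℕ}

theorem exists_pderiv {σ : Type*} (G : Fin n → MvPolynomial σ F) (f : MvPolynomial (Fin n) F)
    (h : ∀ c, aeval G f ≠ C c) : ∃ i, aeval G (pderiv i f) ≠ 0 :=
  exists_pderiv' G f h

omit [CharZero F] in
private theorem lf_coeff_zero (β : Fin n → F) (f : MvPolynomial (Fin n) F) :
    (sub β f).coeff 0 = Polynomial.C (eval β f) := by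
  induction f using MvPolynomial.induction_on with
  | C a =>
    rw [sub_C, Polynomial.coeff_C_zero, eval_C]
  | add f g hf hg => rw [map_add, Polynomial.coeff_add, hf, hg, map_add, map_add]
  | mul_X f l hf =>
    have hX : (sub β (X l)).coeff 0 = Polynomial.C (β l) := by
      unfold sub
      rw [aeval_X, Polynomial.coeff_add, Polynomial.coeff_C_zero, Polynomial.coeff_X_mul_zero,
        add_zero]
    rw [map_mul, Polynomial.mul_coeff_zero, hf, hX, map_mul, map_mul, eval_X]

omit [CharZero F] in
theorem coeff_one (β : Fin n → F) (f : MvPolynomial (Fin n) F) :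
    (sub β f).coeff 1 = ∑ i, Polynomial.C (eval β (pderiv i f)) * pw Polynomial.X i := by
  induction f using MvPolynomial.induction_on with
  | C a =>
    rw [sub_C, Polynomial.coeff_C]
    simp
  | add f g hf hg =>
    rw [map_add, Polynomial.coeff_add, hf, hg, ← Finset.sum_add_distrib]
    refine Finset.sum_congr rfl fun i _ => ?_
    simp only [map_add]
    ring
  | mul_X f l hf =>
    have hX : sub β (X l) = Polynomial.C (Polynomial.C (β l)) +
        Polynomial.X * Polynomial.C (pw (Polynomial.X : Polynomial F) l) := by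
      unfold sub
      rw [aeval_X]
    have h0 : (sub β (X l)).coeff 0 = Polynomial.C (β l) := by
      rw [lf_coeff_zero, eval_X]
    have h1 : (sub β (X l)).coeff 1 = pw (Polynomial.X : Polynomial F) l := by
      rw [hX, Polynomial.coeff_add, Polynomial.coeff_C, Polynomial.coeff_X_mul, Polynomial.coeff_C]
      simp
    rw [map_mul, Polynomial.mul_coeff_one, h0, h1, hf, lf_coeff_zero]
    have h2 : ∀ i : Fin n, Polynomial.C (eval β (pderiv i (f * X l))) *
        pw (Polynomial.X : Polynomial F) i =
        (Polynomial.C (eval β (pderiv i f)) * pw (Polynomial.X : Polynomial F) i) *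
          Polynomial.C (β l) +
        (if i = l then Polynomial.C (eval β f) * pw (Polynomial.X : Polynomial F) i else 0) := by
      intro i
      rw [Derivation.leibniz, pderiv_X]
      by_cases hil : i = l
      · subst hil
        simp only [Pi.single_eq_same, smul_eq_mul, mul_one, map_add, map_mul, eval_X, if_true]
        ring
      · rw [Pi.single_eq_of_ne (Ne.symm hil), if_neg hil]
        simp only [smul_eq_mul, mul_zero, zero_add, map_mul, eval_X]
        ring
    rw [Finset.sum_congr rfl fun i _ => h2 i, Finset.sum_add_distrib, Finset.sum_ite_eq',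
      if_pos (Finset.mem_univ l), ← Finset.sum_mul]
    ring

private theorem leaf_pw_ne (i : Fin n) : pw (-((i : ℕ) : F)) i ≠ 0 := by
  unfold pw
  rw [Finset.prod_ne_zero_iff]
  intro j hj h
  have hne : j ≠ i := (Finset.mem_erase.1 hj).1
  have h1 : ((j : ℕ) : F) = ((i : ℕ) : F) := by linear_combination h
  exact hne (Fin.ext (by exact_mod_cast h1))

omit [CharZero F] in
private theorem leaf_pw_zero {i j : Fin n} (h : j ≠ i) : pw (-((i : ℕ) : F)) j = 0 := by
  unfold pw
  exact Finset.prod_eq_zero (Finset.mem_erase.2 ⟨Ne.symm h, Finset.mem_univ i⟩) (by ring)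

theorem mv_of_pderiv (β : Fin n → F) (f : MvPolynomial (Fin n) F) (i : Fin n)
    (h : eval β (pderiv i f) ≠ 0) : Mv β f := by
  unfold Mv
  have hc : (sub β f).coeff 1 ≠ 0 := by
    intro h0
    rw [coeff_one] at h0
    have h1 := congrArg (Polynomial.eval (-((i : ℕ) : F))) h0
    rw [Polynomial.eval_finsetSum, Polynomial.eval_zero] at h1
    have h2 : ∀ j : Fin n, Polynomial.eval (-((i : ℕ) : F))
        (Polynomial.C (eval β (pderiv j f)) * pw (Polynomial.X : Polynomial F) j) =
        eval β (pderiv j f) * pw (-((i : ℕ) : F)) j := by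
      intro j
      have h3 := map_pw (Polynomial.evalRingHom (-((i : ℕ) : F))) (Polynomial.X : Polynomial F) j
      rw [Polynomial.coe_evalRingHom, Polynomial.eval_X] at h3
      rw [Polynomial.eval_mul, Polynomial.eval_C, h3]
    rw [Finset.sum_congr rfl fun j _ => h2 j, Finset.sum_eq_single i] at h1
    · rcases mul_eq_zero.1 h1 with h3 | h3
      · exact h h3
      · exact leaf_pw_ne i h3
    · intro j _ hj
      rw [leaf_pw_zero hj, mul_zero]
    · intro hi
      exact absurd (Finset.mem_univ i) hi
  have := Polynomial.le_natDegree_of_ne_zero hc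
  omega

end Pool.Agent.ROL
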