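import Pool.Agent.ROL.Gate

/-!
MODULE ROL-Ind.  Read-once formulas of any depth are constant or move.

PLAN.  Induction on `hf`.  Leaf: `h𝓛`.  Constant: left.  Gate `aeval ![f, g] P`:
* `f = C a`, `g = C b`: the value is `C (eval ![a, b] P)` (`aeval` composed with the algebra map).
* `f = C a`, `g` moves: let `p : Polynomial F := aeval ![Polynomial.C a, Polynomial.X] P`; then
  `Polynomial.aeval g p = aeval ![C a, g] P` (`MvPolynomial.algHom_ext` / `comp_aeval`, cases on
  `Fin 2`).  If `p.natDegree = 0`, `p = C c` (`Polynomial.eq_C_of_natDegree_eq_zero`) and the value is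
  `C c`; otherwise `uni_mv`.
* `g = C b`, `f` moves: same with `![Polynomial.X, Polynomial.C b]`.
* both move: if `P = C c` the value is `C c`, otherwise `gate_mv`.
Finite sets of leaves (`ro_fin`): model `Pool/Agent/TXL/FinL.lean` (`circ_mono`, `circ_fin`).
-/

set_option autoImplicit false

namespace Pool.Agent.ROL

open MvPolynomial

variable {F : Type*} [Field F] {n : ℕ}

/-- A gate of two constants is a constant. -/
private theorem gate_cc (a b : F) (P : MvPolynomial (Fin 2) F) :
    aeval ![(C a : MvPolynomial (Fin n) F), C b] P = C (eval ![a, b] P) := by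
  have h : ![(C a : MvPolynomial (Fin n) F), C b] = fun i => C (![a, b] i) := by
    funext i
    fin_cases i
    · rfl
    · rfl
  rw [h]
  have := MvPolynomial.aeval_algebraMap_apply (B := MvPolynomial (Fin n) F) ![a, b] P
  rw [MvPolynomial.algebraMap_eq] at this
  exact this

/-- A gate with a constant on the left is a polynomial in one variable. -/
private theorem gate_cl (a : F) (g : MvPolynomial (Fin n) F) (P : MvPolynomial (Fin 2) F) :
    aeval ![(C a : MvPolynomial (Fin n) F), g] P =
      Polynomial.aeval g (aeval ![(Polynomial.C a : Polynomial F), Polynomial.X] P) := by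
  rw [comp_aeval_apply]
  congr 2
  funext i
  fin_cases i
  · exact (Polynomial.aeval_C g a).symm
  · exact (Polynomial.aeval_X g).symm

/-- A gate with a constant on the right is a polynomial in one variable. -/
private theorem gate_cr (b : F) (f : MvPolynomial (Fin n) F) (P : MvPolynomial (Fin 2) F) :
    aeval ![f, (C b : MvPolynomial (Fin n) F)] P =
      Polynomial.aeval f (aeval ![(Polynomial.X : Polynomial F), Polynomial.C b] P) := by
  rw [comp_aeval_apply]
  congr 2
  funext i
  fin_cases i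
  · exact (Polynomial.aeval_X f).symm
  · exact (Polynomial.aeval_C f b).symm

/-- A polynomial in one moving polynomial is constant or moves. -/
private theorem uni_or (β : Fin n → F) {f : MvPolynomial (Fin n) F} (hf : Mv β f)
    (p : Polynomial F) : (∃ c, Polynomial.aeval f p = C c) ∨ Mv β (Polynomial.aeval f p) := by
  rcases Nat.eq_zero_or_pos p.natDegree with h | h
  · refine Or.inl ⟨p.coeff 0, ?_⟩
    rw [Polynomial.eq_C_of_natDegree_eq_zero h, Polynomial.aeval_C, Polynomial.coeff_C_zero]
    rfl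
  · exact Or.inr (uni_mv β hf p h)

theorem ro_ind [CharZero F] (β : Fin n → F) {𝓛 : MvPolynomial (Fin n) F → Prop}
    (h𝓛 : ∀ f, 𝓛 f → (∃ c, f = C c) ∨ Mv β f) {f : MvPolynomial (Fin n) F} (hf : RO 𝓛 f) :
    (∃ c, f = C c) ∨ Mv β f := by
  induction hf with
  | leaf hf => exact h𝓛 _ hf
  | const a => exact Or.inl ⟨a, rfl⟩
  | @gate f g _ _ hd P ih1 ih2 =>
    rcases ih1 with ⟨a, rfl⟩ | h1
    · rcases ih2 with ⟨b, rfl⟩ | h2
      · exact Or.inl ⟨_, gate_cc a b P⟩
      · rw [gate_cl]
        exact uni_or β h2 _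
    · rcases ih2 with ⟨b, rfl⟩ | h2
      · rw [gate_cr]
        exact uni_or β h1 _
      · by_cases hP : ∃ c, P = C c
        · obtain ⟨c, rfl⟩ := hP
          exact Or.inl ⟨c, by rw [aeval_C]; rfl⟩
        · exact Or.inr (gate_mv β h1 h2 hd P fun c hc => hP ⟨c, hc⟩)

theorem ro_mono {𝓛 𝓛' : MvPolynomial (Fin n) F → Prop} (h : ∀ f, 𝓛 f → 𝓛' f)
    {f : MvPolynomial (Fin n) F} (hf : RO 𝓛 f) : RO 𝓛' f := by
  induction hf with
  | leaf hf => exact .leaf (h _ hf)
  | const a => exact .const a
  | gate _ _ hd P ih1 ih2 => exact .gate ih1 ih2 hd P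

theorem ro_fin {𝓛 : MvPolynomial (Fin n) F → Prop} {f : MvPolynomial (Fin n) F} (hf : RO 𝓛 f) :
    ∃ A : Set (MvPolynomial (Fin n) F), A.Finite ∧ (∀ g ∈ A, 𝓛 g) ∧ RO (fun g => g ∈ A) f := by
  induction hf with
  | @leaf f hf => exact ⟨{f}, Set.finite_singleton f, fun g hg => by
      rw [Set.mem_singleton_iff.1 hg]; exact hf, .leaf (Set.mem_singleton f)⟩
  | const a => exact ⟨∅, Set.finite_empty, fun g hg => absurd hg (Set.notMem_empty g), .const a⟩
  | gate _ _ hd P ih1 ih2 =>
    obtain ⟨A, a1, a2, a3⟩ := ih1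
    obtain ⟨B, b1, b2, b3⟩ := ih2
    exact ⟨A ∪ B, a1.union b1, fun g hg => hg.elim (a2 g) (b2 g),
      .gate (ro_mono (fun g hg => Or.inl hg) a3) (ro_mono (fun g hg => Or.inr hg) b3) hd P⟩

end Pool.Agent.ROL
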