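import Pool.Agent.ROL.Leaf
import Pool.Agent.ROL.Ind
import Pool.Agent.ORB.Gen

/-!
MODULE ROL-Base.  The abstract statement: read-once formulas of any depth over leaves whose nonconstant
members stay nonconstant under a generator are hit by the generator with two more parameters.
-/

set_option autoImplicit false

namespace Pool.Agent.ROL

open MvPolynomial

variable {F : Type*} [Field F] {n : ℕ}

theorem eval_aeval' {σ : Type*} (G : Fin n → MvPolynomial σ F) (s : σ → F)
    (f : MvPolynomial (Fin n) F) : eval s (aeval G f) = eval (fun i => eval s (G i)) f := by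
  induction f using MvPolynomial.induction_on with
  | C a => rw [aeval_C, algebraMap_eq, eval_C, eval_C]
  | add p q hp hq => rw [map_add, map_add, hp, hq, map_add]
  | mul_X p i hp => rw [map_mul, map_mul, hp, aeval_X, map_mul, eval_X]

/-- the specialization of the parameters of `G` -/
noncomputable def spec {σ : Type*} (s : σ → F) :
    MvPolynomial (σ ⊕ Fin 2) F →ₐ[F] Polynomial (Polynomial F) :=
  aeval (Sum.elim (fun r => Polynomial.C (Polynomial.C (s r)))
    ![Polynomial.X, Polynomial.C Polynomial.X])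

theorem spec_rename {σ : Type*} (s : σ → F) (p : MvPolynomial σ F) :
    spec s (rename Sum.inl p) = Polynomial.C (Polynomial.C (eval s p)) := by
  unfold spec
  rw [aeval_rename]
  induction p using MvPolynomial.induction_on with
  | C a => rw [aeval_C, eval_C]; rfl
  | add p q hp hq => rw [map_add, map_add, hp, hq, map_add, map_add]
  | mul_X p i hp => rw [map_mul, map_mul, hp, aeval_X, eval_X, map_mul, map_mul]; rfl

theorem spec_ext {σ : Type*} (G : Fin n → MvPolynomial σ F) (s : σ → F)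
    (f : MvPolynomial (Fin n) F) :
    spec s (aeval (ext G) f) = sub (fun i => eval s (G i)) f := by
  have h : (spec s).comp (aeval (ext G)) = sub (fun i => eval s (G i)) := by
    refine algHom_ext fun i => ?_
    rw [AlgHom.comp_apply, aeval_X]
    unfold ext sub
    rw [map_add, spec_rename, map_mul, aeval_X]
    congr 1
    have h1 : spec s (X (Sum.inr 0)) = Polynomial.X := by
      unfold spec
      rw [aeval_X]
      rfl
    have h2 : spec s (X (Sum.inr 1)) = Polynomial.C Polynomial.X := by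
      unfold spec
      rw [aeval_X]
      rfl
    have h3 : spec s (pw (X (Sum.inr 1)) i) = pw (spec s (X (Sum.inr 1))) i :=
      map_pw (spec s : MvPolynomial (σ ⊕ Fin 2) F →+* Polynomial (Polynomial F)) _ i
    have h4 : Polynomial.C (pw (Polynomial.X : Polynomial F) i) =
        pw (Polynomial.C (Polynomial.X : Polynomial F)) i :=
      map_pw (Polynomial.C : Polynomial F →+* Polynomial (Polynomial F)) _ i
    rw [h1, h3, h2, h4]
  exact congrArg (fun φ => φ f) h

theorem ro_hit [CharZero F] {σ : Type*} (G : Fin n → MvPolynomial σ F)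
    (𝓛 : MvPolynomial (Fin n) F → Prop)
    (hG : ∀ f, 𝓛 f → (∀ c, f ≠ C c) → ∀ c, aeval G f ≠ C c)
    {f : MvPolynomial (Fin n) F} (hf : RO 𝓛 f) (h0 : f ≠ 0) : aeval (ext G) f ≠ 0 := by
  classical
  obtain ⟨A, hA, hL, hR⟩ := ro_fin hf
  have h1 : ∀ g : MvPolynomial (Fin n) F, ∃ q : MvPolynomial σ F, q ≠ 0 ∧
      (g ∈ A → (∀ c, g ≠ C c) → ∃ i, q = aeval G (pderiv i g)) := by
    intro g
    by_cases hg : g ∈ A ∧ ∀ c, g ≠ C c
    · obtain ⟨i, hi⟩ := exists_pderiv G g (hG g (hL g hg.1) hg.2)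
      exact ⟨_, hi, fun _ _ => ⟨i, rfl⟩⟩
    · exact ⟨1, one_ne_zero, fun h h' => absurd ⟨h, h'⟩ hg⟩
  choose q hq hq2 using h1
  obtain ⟨s, hs⟩ := Pool.Agent.ORB.exists_eval_ne_zero (K := F) (f := ∏ g ∈ hA.toFinset, q g)
    (Finset.prod_ne_zero_iff.2 fun g _ => hq g)
  rw [map_prod, Finset.prod_ne_zero_iff] at hs
  have h2 : ∀ g, g ∈ A → (∃ c, g = C c) ∨ Mv (fun i => eval s (G i)) g := by
    intro g hg
    by_cases hc : ∀ c, g ≠ C c
    · obtain ⟨i, hi⟩ := hq2 g hg hc
      refine Or.inr (mv_of_pderiv _ g i ?_)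
      rw [← eval_aeval', ← hi]
      exact hs g (hA.mem_toFinset.2 hg)
    · push Not at hc
      exact Or.inl hc
  rcases ro_ind (fun i => eval s (G i)) h2 hR with ⟨c, hc⟩ | hmv
  · rw [hc, aeval_C, algebraMap_eq]
    rw [hc] at h0
    intro h
    exact h0 (by rw [C_eq_zero.1 h, map_zero])
  · intro h
    unfold Mv at hmv
    rw [← spec_ext, h, map_zero, Polynomial.natDegree_zero] at hmv
    exact lt_irrefl _ hmv

/-- Divisors of products. -/
theorem ro_prod_hit [CharZero F] {σ : Type*} (G : Fin n → MvPolynomial σ F)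
    (𝓛 : MvPolynomial (Fin n) F → Prop)
    (hG : ∀ f, 𝓛 f → (∀ c, f ≠ C c) → ∀ c, aeval G f ≠ C c)
    {m : ℕ} (P : Fin m → MvPolynomial (Fin n) F) (hP : ∀ j, P j ≠ 0 ∧ RO 𝓛 (P j))
    (g : MvPolynomial (Fin n) F) (hg : g ∣ ∏ j, P j) : aeval (ext G) g ≠ 0 := by
  intro h0
  obtain ⟨q, hq⟩ := hg
  have h1 := congrArg (aeval (ext G)) hq
  rw [map_mul, h0, zero_mul, map_prod, Finset.prod_eq_zero_iff] at h1
  obtain ⟨j, -, hj⟩ := h1
  exact ro_hit G 𝓛 hG (hP j).2 (hP j).1 hj

end Pool.Agent.ROL
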