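import Pool.Agent.ROL.Def2
import Pool.Agent.TXL.Bit

/-!
MODULE ROL-Bit.  The points have polynomial bit length.
-/

set_option autoImplicit false

namespace Pool.Agent.ROL

open Pool.Agent.FOR (lev)

private theorem ptsR_mem {n L c B : ℕ} {x : Fin n → ℕ} (hx : x ∈ ptsR n L c B) :
    ∃ g ∈ Pool.Agent.TXL.pts n L c B, ∃ t : Fin 2 → ℕ, (∀ j, t j ≤ B) ∧ ∀ i, x i = g i + t 0 * pw (t 1) i := by
  unfold ptsR at hx
  obtain ⟨q, hq, rfl⟩ := Finset.mem_image.1 hx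
  rw [Finset.mem_product, Finset.mem_product, Finset.mem_product] at hq
  obtain ⟨h1, h2, h3, h4⟩ := hq
  refine ⟨Pool.Agent.TXL.gen n L c q.1 q.2.1 q.2.2.1, ?_, q.2.2.2, ?_, fun i => rfl⟩
  · unfold Pool.Agent.TXL.pts
    refine Finset.mem_image.2 ⟨(q.1, q.2.1, q.2.2.1), ?_, rfl⟩
    rw [Finset.mem_product, Finset.mem_product]
    exact ⟨h1, h2, h3⟩
  · intro j
    exact Nat.lt_succ_iff.1 (Finset.mem_range.1 (Fintype.mem_piFinset.1 h4 j))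

private theorem pw_le {n B W : ℕ} (t : ℕ) (ht : t ≤ B) (hW : B + n ≤ W) (i : Fin n) : pw t i ≤ W ^ (n - 1) := by
  unfold pw
  refine (Finset.prod_le_pow_card _ _ W ?_).trans ?_
  · intro j _
    have := j.2
    simp only [Nat.cast_id]
    omega
  · rw [Finset.card_erase_of_mem (Finset.mem_univ i), Finset.card_univ, Fintype.card_fin]

theorem bit_ptsR (n w c B : ℕ) (x : Fin n → ℕ) (hx : x ∈ ptsR n (lev (max n w)) c B) (i : Fin n) :
    x i ≤ (2 * B + c + 4 * n + 2) ^ (2 ^ 4000 * (n + w + 1) ^ 500 + 12 * n + 4) := by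
  obtain ⟨g, hg, t, ht, hxi⟩ := ptsR_mem hx
  have h1 := Pool.Agent.TXL.bit_pts n w c B g hg i
  rw [hxi i]
  have hn : 0 < n := lt_of_le_of_lt (Nat.zero_le _) i.2
  obtain ⟨W, hW⟩ : ∃ W, W = 2 * B + c + 4 * n + 2 := ⟨_, rfl⟩
  rw [← hW] at h1 ⊢
  have h2 : pw (t 1) i ≤ W ^ (n - 1) := pw_le (t 1) (ht 1) (by omega) i
  have h3 : t 0 * pw (t 1) i ≤ W ^ n := by
    have h4 : t 0 ≤ W := (ht 0).trans (by omega)
    calc t 0 * pw (t 1) i ≤ W * W ^ (n - 1) := Nat.mul_le_mul h4 h2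
      _ = W ^ n := by rw [← pow_succ', Nat.sub_add_cancel hn]
  obtain ⟨A, hA⟩ : ∃ A, A = 2 ^ 4000 * (n + w + 1) ^ 500 := ⟨_, rfl⟩
  rw [← hA] at h1 ⊢
  have h5 : W ^ n ≤ W ^ (A + 12 * n + 3) := Nat.pow_le_pow_right (by omega) (by omega)
  have h6 : W ^ (A + 12 * n + 4) = W ^ (A + 12 * n + 3) * W := pow_succ _ _
  rw [h6]
  have h7 : W ^ (A + 12 * n + 3) * 2 ≤ W ^ (A + 12 * n + 3) * W := Nat.mul_le_mul_left _ (by omega)
  have h8 := h3.trans h5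
  omega

end Pool.Agent.ROL
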