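import Pool.Agent.ROL.Defs
import Pool.Agent.TXL.Def2

/-!
Project ROL: the points.  `gen` is that of `Pool.Agent.TXL`, `pw z i = ∏_{j ≠ i} (z + j)`.
-/

set_option autoImplicit false

namespace Pool.Agent.ROL

open MvPolynomial
open Pool.Agent.FOR (lev)
open Pool.Agent.CLK (EtotK)
open Pool.Agent.TXL (gen deg rkT)

/-- The points of `TXL.gen` plus `t_0 * ∏_{j ≠ i} (t_1 + j)`. -/
def genR (n L c : ℕ) (s : Fin 5 → ℕ) (y u : Fin c → ℕ) (t : Fin 2 → ℕ) (i : Fin n) : ℕ :=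
  gen n L c s y u i + t 0 * pw (t 1) i

/-- All points of the generator with parameters in `{0, …, B}`. -/
def ptsR (n L c B : ℕ) : Finset (Fin n → ℕ) :=
  ((Fintype.piFinset fun _ : Fin 5 => Finset.range (B + 1)) ×ˢ
    ((Fintype.piFinset fun _ : Fin c => Finset.range (B + 1)) ×ˢ
      ((Fintype.piFinset fun _ : Fin c => Finset.range (B + 1)) ×ˢ
        (Fintype.piFinset fun _ : Fin 2 => Finset.range (B + 1))))).image
    fun a => genR n L c a.1 a.2.1 a.2.2.1 a.2.2.2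

/-- The points. -/
def pointsR (n κ k w r c D Δ D' : ℕ) : Finset (Fin n → ℕ) :=
  ptsR n (lev (max n (rkT κ k w r c D Δ))) (2 + EtotK κ k w Δ) (deg n (rkT κ k w r c D Δ) * D')

end Pool.Agent.ROL
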