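import Mathlib

/-!
Project ROL (MP_e2be99_lc; paper proof `/team-store/pit48_ROL.md`): read-once compositions of ANY depth
over a class of leaves are hit by the generator of the leaves with two more parameters.

`RO 𝓛`: polynomials in two already constructed polynomials without common variables, nested to any
depth.  `pw z i = ∏_{j ≠ i} (z + j)`, so `y * pw z i` is `y / (z + i)` times a common factor.
`ext G`: the generator `G` plus `y * pw z`.
-/

set_option autoImplicit false

namespace Pool.Agent.ROL

open MvPolynomial

/-- Read-once formulas over `𝓛`: members of `𝓛`, constants, and any polynomial `P(f, g)` in two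
read-once formulas `f, g` without common variables. -/
inductive RO {F : Type*} [Field F] {n : ℕ} (𝓛 : MvPolynomial (Fin n) F → Prop) :
    MvPolynomial (Fin n) F → Prop
  | leaf {f : MvPolynomial (Fin n) F} (hf : 𝓛 f) : RO 𝓛 f
  | const (a : F) : RO 𝓛 (C a)
  | gate {f g : MvPolynomial (Fin n) F} (hf : RO 𝓛 f) (hg : RO 𝓛 g) (hd : Disjoint f.vars g.vars)
      (P : MvPolynomial (Fin 2) F) : RO 𝓛 (aeval ![f, g] P)

/-- `∏_{j ≠ i} (z + j)` -/
def pw {R : Type*} [CommSemiring R] {n : ℕ} (z : R) (i : Fin n) : R :=
  ∏ j ∈ Finset.univ.erase i, (z + ((j : ℕ) : R))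

theorem map_pw {R S : Type*} [CommSemiring R] [CommSemiring S] (φ : R →+* S) {n : ℕ} (z : R)
    (i : Fin n) : φ (pw z i) = pw (φ z) i := by
  unfold pw
  rw [map_prod]
  refine Finset.prod_congr rfl fun j _ => ?_
  rw [map_add, map_natCast]

variable {F : Type*} [Field F] {n : ℕ}

/-- The generator `G` with two more parameters. -/
noncomputable def ext {σ : Type*} (G : Fin n → MvPolynomial σ F) (i : Fin n) :
    MvPolynomial (σ ⊕ Fin 2) F :=
  rename Sum.inl (G i) + X (Sum.inr 0) * pw (X (Sum.inr 1)) i

/-- `f` at the points `β_i + y * pw z i`; the outer variable is `y`, the inner variable is `z`. -/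
noncomputable def sub (β : Fin n → F) : MvPolynomial (Fin n) F →ₐ[F] Polynomial (Polynomial F) :=
  aeval fun i => Polynomial.C (Polynomial.C (β i)) +
    Polynomial.X * Polynomial.C (pw (Polynomial.X : Polynomial F) i)

/-- `f` moves: its value at `β_i + y * pw z i` depends on `y`. -/
def Mv (β : Fin n → F) (f : MvPolynomial (Fin n) F) : Prop := 0 < (sub β f).natDegree

end Pool.Agent.ROL
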