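import Pool.Agent.ROL.Defs

/-!
MODULE ROL-Ex.  Sums and products of any number of read-once formulas without common variables are
read-once formulas; univariate polynomials of them.

PLAN.
* `ro_uni`: gate with `g = C 0` and `P` the image of `p` under `X ↦ X 0`
  (`P = Polynomial.aeval (X 0) p`; `aeval ![f, C 0] (Polynomial.aeval (X 0) p) =
  Polynomial.aeval (aeval _ (X 0)) p`, `Polynomial.aeval_algHom_apply`); `(C 0).vars = ∅`.
* `ro_sum`, `ro_prod`: `Finset.induction_on`; the variables of a partial sum (product) are contained in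
  the union of the variables (`vars_sum_subset`, `vars_prod`), so disjoint from those of the next
  one; gate with `P = X 0 + X 1` (`P = X 0 * X 1`).  Empty sum: `.const 0`, `map_zero`; empty
  product `.const 1`.
-/

set_option autoImplicit false

namespace Pool.Agent.ROL

open MvPolynomial

variable {F : Type*} [Field F] {n : ℕ} {𝓛 : MvPolynomial (Fin n) F → Prop}

theorem ro_uni {f : MvPolynomial (Fin n) F} (hf : RO 𝓛 f) (p : Polynomial F) :
    RO 𝓛 (Polynomial.aeval f p) := by
  have h := RO.gate hf (RO.const (𝓛 := 𝓛) (0 : F)) (by rw [vars_C]; exact Finset.disjoint_empty_right _)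
    (Polynomial.aeval (X 0 : MvPolynomial (Fin 2) F) p)
  rw [← Polynomial.aeval_algHom_apply, aeval_X] at h
  exact h

theorem ro_sum {ι : Type*} (s : Finset ι) (f : ι → MvPolynomial (Fin n) F)
    (hf : ∀ i ∈ s, RO 𝓛 (f i))
    (hd : ∀ i ∈ s, ∀ j ∈ s, i ≠ j → Disjoint (f i).vars (f j).vars) : RO 𝓛 (∑ i ∈ s, f i) := by
  classical
  induction s using Finset.induction_on with
  | empty =>
    rw [Finset.sum_empty]
    have h := RO.const (𝓛 := 𝓛) (0 : F)
    rwa [map_zero] at h
  | insert a s ha ih =>
    rw [Finset.sum_insert ha]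
    have h1 : RO 𝓛 (∑ i ∈ s, f i) :=
      ih (fun i hi => hf i (Finset.mem_insert_of_mem hi))
        (fun i hi j hj => hd i (Finset.mem_insert_of_mem hi) j (Finset.mem_insert_of_mem hj))
    have h2 : Disjoint (f a).vars (∑ i ∈ s, f i).vars := by
      refine Finset.disjoint_of_subset_right (vars_sum_subset s f) ?_
      rw [Finset.disjoint_biUnion_right]
      intro i hi
      exact hd a (Finset.mem_insert_self a s) i (Finset.mem_insert_of_mem hi) (fun h => ha (h ▸ hi))
    have h := RO.gate (hf a (Finset.mem_insert_self a s)) h1 h2 (X 0 + X 1)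
    rw [map_add, aeval_X, aeval_X] at h
    exact h

theorem ro_prod {ι : Type*} (s : Finset ι) (f : ι → MvPolynomial (Fin n) F)
    (hf : ∀ i ∈ s, RO 𝓛 (f i))
    (hd : ∀ i ∈ s, ∀ j ∈ s, i ≠ j → Disjoint (f i).vars (f j).vars) : RO 𝓛 (∏ i ∈ s, f i) := by
  classical
  induction s using Finset.induction_on with
  | empty =>
    rw [Finset.prod_empty]
    have h := RO.const (𝓛 := 𝓛) (1 : F)
    rwa [map_one] at h
  | insert a s ha ih =>
    rw [Finset.prod_insert ha]
    have h1 : RO 𝓛 (∏ i ∈ s, f i) :=
      ih (fun i hi => hf i (Finset.mem_insert_of_mem hi))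
        (fun i hi j hj => hd i (Finset.mem_insert_of_mem hi) j (Finset.mem_insert_of_mem hj))
    have h2 : Disjoint (f a).vars (∏ i ∈ s, f i).vars := by
      refine Finset.disjoint_of_subset_right (vars_prod (s := s) f) ?_
      rw [Finset.disjoint_biUnion_right]
      intro i hi
      exact hd a (Finset.mem_insert_self a s) i (Finset.mem_insert_of_mem hi) (fun h => ha (h ▸ hi))
    have h := RO.gate (hf a (Finset.mem_insert_self a s)) h1 h2 (X 0 * X 1)
    rw [map_mul, aeval_X, aeval_X] at h
    exact h

end Pool.Agent.ROL
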