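import Pool.Agent.ROL.Defs

/-!
MODULE ROL-SumNe.  A weighted homogeneous polynomial in two polynomials of one variable, one with a
pole, does not vanish.

PLAN.  Let `α = rootMultiplicity a A < N₁` (`Polynomial.le_rootMultiplicity_iff`; `A ≠ 0` as `0` is
divisible), `b = rootMultiplicity a B ≥ N₂`.  Choose `p0 ∈ T` with `p0.1` maximal
(`Finset.exists_max_image`).  Other elements `p` of `T` have `p.1 ≠ p0.1` (if `p.1 = p0.1` then
`p.2 * N₂ = p0.2 * N₂`, so `p = p0`), so `p.1 < p0.1`, `(p.2 - p0.2) * N₂ = (p0.1 - p.1) * N₁`, and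
`(p.1 * α + p.2 * b) > (p0.1 * α + p0.2 * b) =: e`, since
`(p.2 - p0.2) * b ≥ (p.2 - p0.2) * N₂ = (p0.1 - p.1) * N₁ > (p0.1 - p.1) * α`.  So all terms of the sum
except the one of `p0` are divisible by `(X - C a)^(e+1)`, and that of `p0` is not
(`rootMultiplicity_mul`, `rootMultiplicity_pow` or by writing `A = (X - C a)^α * A'`,
`B = (X - C a)^b * B'` with `A'.eval a ≠ 0`, `B'.eval a ≠ 0`: `exists_eq_pow_rootMultiplicity_mul_and_not_dvd`).
Hence the sum is not divisible by `(X - C a)^(e+1)` and is not `0`.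
-/

set_option autoImplicit false

namespace Pool.Agent.ROL

open Polynomial

private theorem rolSumNe_ex {F : Type*} [Field F] (a : F) {A : Polynomial F} (hA : A ≠ 0) :
    ∃ (n : ℕ) (A' : Polynomial F), A = (X + C a) ^ n * A' ∧ ¬ (X + C a) ∣ A' := by
  obtain ⟨q, h1, h2⟩ := exists_eq_pow_rootMultiplicity_mul_and_not_dvd A hA (-a)
  rw [C_neg, sub_neg_eq_add] at h1 h2
  exact ⟨_, q, h1, h2⟩

private theorem rolSumNe_prime {F : Type*} [Field F] (a : F) : Prime (X + C a : Polynomial F) := by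
  have h := prime_X_sub_C (-a)
  rwa [C_neg, sub_neg_eq_add] at h

private theorem rolSumNe_arith {a b c d α β N₁ N₂ : ℕ} (h : a * N₁ + b * N₂ = c * N₁ + d * N₂)
    (hac : a < c) (hα : α < N₁) (hβ : N₂ ≤ β) : c * α + d * β + 1 ≤ a * α + b * β := by
  obtain ⟨e, rfl⟩ := Nat.exists_eq_add_of_lt hac
  have h3 : b * N₂ = (e + 1) * N₁ + d * N₂ := by
    have h4 : (a + e + 1) * N₁ = a * N₁ + (e + 1) * N₁ := by ring
    rw [h4] at h
    omega
  have hdb : d < b := by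
    by_contra hc
    have h4 : b * N₂ ≤ d * N₂ := Nat.mul_le_mul_right _ (not_lt.1 hc)
    have h5 : 0 < (e + 1) * N₁ := Nat.mul_pos (Nat.succ_pos e) (by omega)
    omega
  obtain ⟨f, rfl⟩ := Nat.exists_eq_add_of_lt hdb
  have h4 : (f + 1) * N₂ = (e + 1) * N₁ := by
    have h5 : (d + f + 1) * N₂ = d * N₂ + (f + 1) * N₂ := by ring
    rw [h5] at h3
    omega
  have h5 : (f + 1) * N₂ ≤ (f + 1) * β := Nat.mul_le_mul_left _ hβ
  have h6 : (e + 1) * α < (e + 1) * N₁ := Nat.mul_lt_mul_of_pos_left hα (Nat.succ_pos e)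
  have h7 : (a + e + 1) * α = a * α + (e + 1) * α := by ring
  have h8 : (d + f + 1) * β = d * β + (f + 1) * β := by ring
  rw [h7, h8]
  omega

theorem sum_ne {F : Type*} [Field F] (a : F) {A B : Polynomial F} {N₁ N₂ : ℕ} (h1 : 0 < N₁)
    (h2 : 0 < N₂) (hA : ¬ (X + C a) ^ N₁ ∣ A) (hB : (X + C a) ^ N₂ ∣ B) (hB0 : B ≠ 0)
    (T : Finset (ℕ × ℕ)) (hT : T.Nonempty) (μ : ℕ) (hμ : ∀ p ∈ T, p.1 * N₁ + p.2 * N₂ = μ)
    (q : ℕ × ℕ → F) (hq : ∀ p ∈ T, q p ≠ 0) :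
    ∑ p ∈ T, C (q p) * (A ^ p.1 * B ^ p.2) ≠ 0 := by
  classical
  have hA0 : A ≠ 0 := by
    rintro rfl
    exact hA (dvd_zero _)
  have hpr := rolSumNe_prime a
  obtain ⟨α, A', hA', hAd⟩ := rolSumNe_ex a hA0
  obtain ⟨β, B', hB', hBd⟩ := rolSumNe_ex a hB0
  have hα : α < N₁ := by
    by_contra hc
    apply hA
    rw [hA']
    exact Dvd.dvd.mul_right (pow_dvd_pow _ (not_lt.1 hc)) _
  have hβ : N₂ ≤ β := by
    by_contra hc
    have h3 : (X + C a) ^ (β + 1) ∣ (X + C a) ^ β * B' := by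
      rw [← hB']
      exact (pow_dvd_pow _ (by omega)).trans hB
    rw [pow_succ] at h3
    exact hBd ((mul_dvd_mul_iff_left (pow_ne_zero _ hpr.ne_zero)).1 h3)
  have hterm : ∀ p : ℕ × ℕ, C (q p) * (A ^ p.1 * B ^ p.2) =
      (X + C a) ^ (p.1 * α + p.2 * β) * (C (q p) * (A' ^ p.1 * B' ^ p.2)) := by
    intro p
    conv_lhs => rw [hA', hB']
    rw [mul_pow, mul_pow, ← pow_mul, ← pow_mul, pow_add, mul_comm α, mul_comm β]
    ring
  obtain ⟨p0, hp0, hmax⟩ := Finset.exists_max_image T Prod.fst hT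
  intro hsum
  rw [← Finset.add_sum_erase T _ hp0, add_eq_zero_iff_eq_neg] at hsum
  have hdvd : (X + C a) ^ (p0.1 * α + p0.2 * β + 1) ∣ ∑ p ∈ T.erase p0, C (q p) * (A ^ p.1 * B ^ p.2) := by
    refine Finset.dvd_sum fun p hp => ?_
    rw [Finset.mem_erase] at hp
    have hlt : p.1 < p0.1 := by
      refine lt_of_le_of_ne (hmax p hp.2) fun h3 => hp.1 (Prod.ext h3 ?_)
      have h4 := (hμ p hp.2).trans (hμ p0 hp0).symm
      rw [h3] at h4
      exact Nat.eq_of_mul_eq_mul_right h2 (Nat.add_left_cancel h4)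
    rw [hterm]
    refine Dvd.dvd.mul_right (pow_dvd_pow _ ?_) _
    exact rolSumNe_arith ((hμ p hp.2).trans (hμ p0 hp0).symm) hlt hα hβ
  have h3 : (X + C a) ^ (p0.1 * α + p0.2 * β + 1) ∣ C (q p0) * (A ^ p0.1 * B ^ p0.2) := by
    rw [hsum]
    exact (dvd_neg).2 hdvd
  rw [hterm, pow_succ, mul_dvd_mul_iff_left (pow_ne_zero _ hpr.ne_zero)] at h3
  rcases hpr.dvd_or_dvd h3 with h4 | h4
  · have h5 : IsUnit (C (q p0)) := isUnit_C.2 (isUnit_iff_ne_zero.2 (hq p0 hp0))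
    exact hpr.not_isUnit (isUnit_of_dvd_unit h4 h5)
  · rcases hpr.dvd_or_dvd h4 with h5 | h5
    · exact hAd (hpr.dvd_of_dvd_pow h5)
    · exact hBd (hpr.dvd_of_dvd_pow h5)

end Pool.Agent.ROL
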