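import Pool.Agent.ROL.Ord
import Pool.Agent.ROL.SumNe

/-!
MODULE ROL-Gate.  Gates of read-once formulas move.

PLAN.
* `uni_mv`: `sub β (Polynomial.aeval f p) = Polynomial.aeval (sub β f) p` (algebra homomorphism,
  `Polynomial.map_aeval_eq_aeval_map` or `Polynomial.aeval_algHom_apply`), and
  `Polynomial.aeval s p = (p.map (algebraMap F (Polynomial F))).comp s`; `Polynomial.natDegree_comp`
  and `Polynomial.natDegree_map` give the degree `p.natDegree * (sub β f).natDegree`.
* `gate_coeff`.  `aeval ![p, q] P = ∑ s ∈ P.support, algebraMap (coeff s P) * (p ^ s 0 * q ^ s 1)`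
  (`aeval_def`, `eval₂_eq'`, `Fin.prod_univ_two`).  The coefficient of `y^μ` of a term is `0` if
  `s 0 * natDegree p + s 1 * natDegree q < μ` (`Polynomial.coeff_eq_zero_of_natDegree_lt`,
  `natDegree_mul_le`, `natDegree_pow_le`) and the product of the leading coefficients if it is `μ`
  (`Polynomial.coeff_natDegree`, `leadingCoeff_mul`, `leadingCoeff_pow`, `natDegree_mul` for nonzero
  factors; the ring `Polynomial F` is a domain.  If `p = 0` or `q = 0` treat separately, or use
  `Polynomial.coeff_mul_of_natDegree_le`, `coeff_pow_of_natDegree_le`, which need no domain).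
* `gate_mv`.  `sub β (aeval ![f, g] P) = aeval ![sub β f, sub β g] P`.  Let `N₁, N₂ > 0` be the degrees
  in `y` of `sub β f`, `sub β g`, let `μ` be the maximum of `s 0 * N₁ + s 1 * N₂` over the support of `P`
  (`P ≠ 0`).  `μ > 0`: the support of `P` contains some `s ≠ 0` (otherwise `P = C (coeff 0 P)`), and then
  `s 0 > 0` or `s 1 > 0`.  By `gate_coeff` the coefficient of `y^μ` is the sum over the `s` of weight
  `μ`, transported to pairs `(s 0, s 1)` (`Finset.sum_image` or `sum_bij`; `s` is determined by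
  `(s 0, s 1)`; the coefficient of the pair is `P.coeff` of
  `Finsupp.equivFunOnFinite.symm ![a, b]`), a sum as in `sum_ne` with `A` the leading coefficient of
  `sub β f`, `B` that of `sub β g`.  `exists_pole` for `f` and `m = N₁` gives `i ∈ f.vars`, not in
  `g.vars`, with `(X + C i)^N₁ ∤ A`; `dvd_coeff` for `g` gives `(X + C i)^N₂ ∣ B`.  So the
  coefficient is not `0` and the degree is at least `μ > 0` (`Polynomial.le_natDegree_of_ne_zero`).
-/

set_option autoImplicit false

namespace Pool.Agent.ROL

open MvPolynomial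

variable {F : Type*} [Field F] {n : ℕ}

theorem uni_mv (β : Fin n → F) {f : MvPolynomial (Fin n) F} (hf : Mv β f) (p : Polynomial F)
    (hp : 0 < p.natDegree) : Mv β (Polynomial.aeval f p) := by
  unfold Mv at *
  have h1 : sub β (Polynomial.aeval f p) = Polynomial.aeval (sub β f) p :=
    (Polynomial.aeval_algHom_apply (sub β) f p).symm
  have h2 : Polynomial.aeval (sub β f) p =
      (p.map (algebraMap F (Polynomial F))).comp (sub β f) := by
    rw [Polynomial.comp, Polynomial.eval₂_map, Polynomial.aeval_def]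
    congr 1
  rw [h1, h2, Polynomial.natDegree_comp, Polynomial.natDegree_map]
  exact Nat.mul_pos hp hf

theorem gate_coeff (p q : Polynomial (Polynomial F)) (P : MvPolynomial (Fin 2) F) (μ : ℕ)
    (hμ : ∀ s ∈ P.support, s 0 * p.natDegree + s 1 * q.natDegree ≤ μ) :
    (aeval ![p, q] P).coeff μ =
      ∑ s ∈ P.support with s 0 * p.natDegree + s 1 * q.natDegree = μ,
        Polynomial.C (P.coeff s) * (p.leadingCoeff ^ s 0 * q.leadingCoeff ^ s 1) := by
  have key : ∀ s ∈ P.support,
      (algebraMap F (Polynomial (Polynomial F)) (P.coeff s) *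
        (∏ i, ![p, q] i ^ s i)).coeff μ =
      if s 0 * p.natDegree + s 1 * q.natDegree = μ then
        Polynomial.C (P.coeff s) * (p.leadingCoeff ^ s 0 * q.leadingCoeff ^ s 1) else 0 := by
    intro s hs
    have hle := hμ s hs
    rw [Fin.prod_univ_two]
    simp only [Matrix.cons_val_zero, Matrix.cons_val_one]
    have ha : algebraMap F (Polynomial (Polynomial F)) (P.coeff s) =
        Polynomial.C (Polynomial.C (P.coeff s)) := rfl
    have hp : (p ^ s 0).natDegree ≤ s 0 * p.natDegree := Polynomial.natDegree_pow_le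
    have hq : (q ^ s 1).natDegree ≤ s 1 * q.natDegree := Polynomial.natDegree_pow_le
    rw [ha, Polynomial.coeff_C_mul]
    split_ifs with h
    · congr 1
      rw [← h, Polynomial.coeff_mul_add_eq_of_natDegree_le hp hq,
        Polynomial.coeff_pow_of_natDegree_le le_rfl, Polynomial.coeff_pow_of_natDegree_le le_rfl]
      rfl
    · have hlt : s 0 * p.natDegree + s 1 * q.natDegree < μ := lt_of_le_of_ne hle h
      have : (p ^ s 0 * q ^ s 1).natDegree < μ := by
        refine lt_of_le_of_lt ?_ hlt
        exact Polynomial.natDegree_mul_le.trans (add_le_add hp hq)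
      rw [Polynomial.coeff_eq_zero_of_natDegree_lt this, mul_zero]
  rw [aeval_def, eval₂_eq', Polynomial.finsetSum_coeff, Finset.sum_filter]
  exact Finset.sum_congr rfl key

private theorem pair_symm (s : Fin 2 →₀ ℕ) :
    Finsupp.equivFunOnFinite.symm ![s 0, s 1] = s := by
  ext i
  fin_cases i
  · rfl
  · rfl

private theorem pair_inj {s t : Fin 2 →₀ ℕ} (h0 : s 0 = t 0) (h1 : s 1 = t 1) : s = t := by
  rw [← pair_symm s, ← pair_symm t, h0, h1]

theorem gate_mv [CharZero F] (β : Fin n → F) {f g : MvPolynomial (Fin n) F} (hf : Mv β f)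
    (hg : Mv β g) (hd : Disjoint f.vars g.vars) (P : MvPolynomial (Fin 2) F)
    (hP : ∀ c, P ≠ C c) : Mv β (aeval ![f, g] P) := by
  classical
  unfold Mv at *
  have h1 : sub β (aeval ![f, g] P) = aeval ![sub β f, sub β g] P := by
    rw [comp_aeval_apply]
    congr 2
    funext i
    fin_cases i
    · rfl
    · rfl
  rw [h1]
  set p := sub β f with hpdef
  set q := sub β g with hqdef
  have hP0 : P ≠ 0 := by
    intro h
    exact hP 0 (by rw [h, C_0])
  have hne : P.support.Nonempty := by
    rw [Finset.nonempty_iff_ne_empty]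
    intro h
    exact hP0 (support_eq_empty.mp h)
  obtain ⟨t, ht, ht0⟩ : ∃ t ∈ P.support, t ≠ 0 := by
    by_contra hcon
    push Not at hcon
    apply hP (P.coeff 0)
    ext s
    rw [coeff_C]
    split_ifs with h
    · rw [← h]
    · by_contra hs
      exact h (hcon s (mem_support_iff.mpr hs)).symm
  obtain ⟨s₀, hs₀, hmax⟩ := Finset.exists_max_image P.support
    (fun s => s 0 * p.natDegree + s 1 * q.natDegree) hne
  set μ := s₀ 0 * p.natDegree + s₀ 1 * q.natDegree with hμdef
  have hμpos : 0 < μ := by
    refine lt_of_lt_of_le ?_ (hmax t ht)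
    have : t 0 ≠ 0 ∨ t 1 ≠ 0 := by
      by_contra hcon
      push Not at hcon
      exact ht0 (pair_inj (by rw [hcon.1]; rfl) (by rw [hcon.2]; rfl))
    rcases this with h | h
    · have := Nat.mul_pos (Nat.pos_of_ne_zero h) hf
      show 0 < t 0 * p.natDegree + t 1 * q.natDegree
      omega
    · have := Nat.mul_pos (Nat.pos_of_ne_zero h) hg
      show 0 < t 0 * p.natDegree + t 1 * q.natDegree
      omega
  have hco := gate_coeff p q P μ hmax
  have hA0 : p.coeff p.natDegree ≠ 0 := by
    rw [Polynomial.coeff_natDegree, Ne, Polynomial.leadingCoeff_eq_zero]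
    intro h
    rw [h, Polynomial.natDegree_zero] at hf
    exact lt_irrefl 0 hf
  have hB0 : q.leadingCoeff ≠ 0 := by
    rw [Ne, Polynomial.leadingCoeff_eq_zero]
    intro h
    rw [h, Polynomial.natDegree_zero] at hg
    exact lt_irrefl 0 hg
  obtain ⟨i, hi, hnd⟩ := exists_pole β f hf hA0
  have hig : i ∉ g.vars := fun h => (Finset.disjoint_left.mp hd) hi h
  have hdv := dvd_coeff β g i hig q.natDegree
  have hsum : (∑ s ∈ P.support with s 0 * p.natDegree + s 1 * q.natDegree = μ,
        Polynomial.C (P.coeff s) * (p.leadingCoeff ^ s 0 * q.leadingCoeff ^ s 1)) =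
      ∑ z ∈ (P.support.filter
          (fun s => s 0 * p.natDegree + s 1 * q.natDegree = μ)).image (fun s => (s 0, s 1)),
        Polynomial.C (P.coeff (Finsupp.equivFunOnFinite.symm ![z.1, z.2])) *
          (p.leadingCoeff ^ z.1 * q.leadingCoeff ^ z.2) := by
    rw [Finset.sum_image]
    · refine Finset.sum_congr rfl fun s _ => ?_
      simp only [pair_symm]
    · intro s _ t _ h
      have h' := Prod.mk.inj h
      exact pair_inj h'.1 h'.2
  have hne0 : (aeval ![p, q] P).coeff μ ≠ 0 := by
    rw [hco, hsum]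
    refine sum_ne ((i : ℕ) : F) hf hg hnd hdv hB0 _ ?_ μ ?_ _ ?_
    · exact ⟨(s₀ 0, s₀ 1), Finset.mem_image.mpr ⟨s₀, Finset.mem_filter.mpr ⟨hs₀, rfl⟩, rfl⟩⟩
    · intro z hz
      obtain ⟨s, hs, rfl⟩ := Finset.mem_image.mp hz
      exact (Finset.mem_filter.mp hs).2
    · intro z hz
      obtain ⟨s, hs, rfl⟩ := Finset.mem_image.mp hz
      simp only [pair_symm]
      exact mem_support_iff.mp (Finset.mem_filter.mp hs).1
  exact lt_of_lt_of_le hμpos (Polynomial.le_natDegree_of_ne_zero hne0)

end Pool.Agent.ROL
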