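import Pool.Agent.TXL.Core

/-!
MODULE ROL-Lim.  Nonconstant limits stay nonconstant under the generator of TXL.

PLAN.
* `limit_sub`: `LimitLeaves` is closed under subtracting the value at a natural point.  Same data with
  `h' = h - C (eval (fun i => (b i : O)) h)`: `map res h' = map res h - C (res (eval _ h))` and
  `res (eval (fun i => (b i : O)) h) = eval (fun i => (b i : F)) (map res h)` (`eval_map`,
  `eval₂_comp`, `map_natCast`; or `MvPolynomial.map_eval`); `map (algebraMap O K) h'` is
  `map (algebraMap O K) h` minus a constant of `K`, so it is algebraic (`IsAlgebraic.sub`,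
  `isAlgebraic_algebraMap` with the element `algebraMap K (Algebra.adjoin K _) c` of the adjoin).
* `limit_const`.  If the image is `C a`, evaluate at the parameters `0`: by `ORB.eval_PhiP`
  `a = eval (ORB.val (cvx F n (4 * n)) (fun v => eval 0 (crv2 F n L v)) 0 0) P`, and
  `ORB.val ... i = eval 0 (crv2 F n L i) + 0` is the natural number `crvN L 0 i` (`crvN_cast` with
  `s = 0`, see the end of the proof of `limit_hit` in `TXL/Core.lean`).  So `a = eval (b) P` for a natural
  point `b`, `P - C a` is a limit by `limit_sub`, not `0` as `P ≠ C a`, so its image is not `0` by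
  `limit_hit`; but the image is `C a - C a = 0`.
-/

set_option autoImplicit false

namespace Pool.Agent.ROL

open MvPolynomial
open Pool.Agent.FOR (Ps lev)
open Pool.Agent.ORB (PhiP)
open Pool.Agent.ORA (cvx)
open Pool.Agent.CLK (szK EtotK)
open Pool.Agent.TWX (crv2)
open Pool.Agent.TXL

theorem limit_sub.{u, v, x} {n : ℕ} (κ k w r c D Δ : ℕ) {F : Type x} [Field F]
    (P : MvPolynomial (Fin n) F) (hP : LimitLeaves.{u, v, x} n κ k w r c D Δ P) (b : Fin n → ℕ) :
    LimitLeaves.{u, v, x} n κ k w r c D Δ (P - C (eval (fun i => ((b i : ℕ) : F)) P)) := by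
  obtain ⟨O, i1, i2, i3, K, i4, i5, i6, res, i7, β, N, T, h, hT, htr, halg, rfl⟩ := hP
  refine ⟨O, i1, i2, i3, K, i4, i5, i6, res, i7, β, N, T,
    h - C (eval (fun i => ((b i : ℕ) : O)) h), hT, htr, ?_, ?_⟩
  · rw [map_sub, map_C]
    refine halg.sub ?_
    exact isAlgebraic_algebraMap (R := Algebra.adjoin K (Set.range T))
      (A := MvPolynomial (Fin n) K)
      (algebraMap K (Algebra.adjoin K (Set.range T))
        (algebraMap O K (eval (fun i => ((b i : ℕ) : O)) h)))
  · rw [map_sub, map_C]
    congr 2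
    rw [eval_map]
    have h1 := MvPolynomial.eval₂_comp_left res (RingHom.id O) (fun i => ((b i : ℕ) : O)) h
    rw [RingHom.comp_id] at h1
    have h2 : (res ∘ fun i => ((b i : ℕ) : O)) = fun i => ((b i : ℕ) : F) := by
      funext i
      exact map_natCast res _
    rw [h2] at h1
    exact h1.symm

theorem limit_const.{u, v, x} {n : ℕ} (κ k w r c D Δ : ℕ) {F : Type x} [Field F] [CharZero F]
    (P : MvPolynomial (Fin n) F) (hP : LimitLeaves.{u, v, x} n κ k w r c D Δ P)
    (hn : ∀ a, P ≠ C a) (a : F) :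
    PhiP (cvx F n (4 * n)) (crv2 F n (lev (max n (rkT κ k w r c D Δ)))) (2 + EtotK κ k w Δ) P ≠
      C a := by
  intro h0
  have h1 := congrArg (eval (fun _ => (0 : F))) h0
  rw [Pool.Agent.ORB.eval_PhiP, eval_C] at h1
  have h2 : Pool.Agent.ORB.val (cvx F n (4 * n))
      (fun v => eval (fun _ : Fin 5 => (0 : F))
        (crv2 F n (lev (max n (rkT κ k w r c D Δ))) v))
      (fun _ : Fin (2 + EtotK κ k w Δ) => (0 : F)) (fun _ => (0 : F)) =
      fun i : Fin n => ((crvN (lev (max n (rkT κ k w r c D Δ))) 0 (i : ℕ) : ℕ) : F) := by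
    funext i
    unfold Pool.Agent.ORB.val
    beta_reduce
    rw [← crvN_cast]
    simp
  rw [h2] at h1
  have h3 := limit_sub κ k w r c D Δ P hP
    (fun i => crvN (lev (max n (rkT κ k w r c D Δ))) 0 (i : ℕ))
  beta_reduce at h3
  rw [h1] at h3
  refine limit_hit κ k w r c D Δ _ h3 (sub_ne_zero.2 (hn a)) ?_
  rw [map_sub, h0]
  have h4 : PhiP (cvx F n (4 * n)) (crv2 F n (lev (max n (rkT κ k w r c D Δ))))
      (2 + EtotK κ k w Δ) (C a) = C a := by
    have := (PhiP (cvx F n (4 * n)) (crv2 F n (lev (max n (rkT κ k w r c D Δ))))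
      (2 + EtotK κ k w Δ)).commutes a
    exact this
  rw [h4, sub_self]

end Pool.Agent.ROL
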