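import Pool.Agent.ROL.Defs

/-!
MODULE ROL-Ord.  The coefficients of `f (β_i + y * pw z i)` as a polynomial in `y`.

PLAN.
* `sub_C`: `aeval_C`, the algebra map of `F[z][y]` is `C ∘ C`.
* `dvd_coeff`.  The set of `p : Polynomial (Polynomial F)` with `(X + C i)^m ∣ p.coeff m` for all `m`
  is closed under sums, products (`Polynomial.coeff_mul`: a sum over the antidiagonal, and
  `(X + C i)^(a+b) = (X + C i)^a * (X + C i)^b`), contains `C q` for every `q` (all coefficients with
  `m > 0` vanish, `m = 0` is trivial), and contains `sub β (X j)` for `j ≠ i` (coefficient 1 is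
  `pw X j = ∏_{l ≠ j} (X + l)`, which contains the factor `l = i`; coefficients `m ≥ 2` vanish).
  Write `f` as the sum of its monomials (`f.as_sum`, or `MvPolynomial.aeval_def`, `eval₂_eq`): only
  variables of `f.vars` occur (`mem_vars`), so `j ≠ i` in all of them.
* `natDegree_coeff_le`.  In the same way for the set of `p` with `(p.coeff m).natDegree ≤ m * (n - 1)`
  for all `m` (`pw X j` has degree at most `n - 1`: `Polynomial.natDegree_prod_le`,
  `Finset.card_erase_of_mem`).
* `exists_pole`.  If `(X + C i)^m` divides `p := (sub β f).coeff m` for every `i ∈ f.vars`, then by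
  `dvd_coeff` for every `i : Fin n`.  The `X + C i` are pairwise coprime (characteristic 0:
  `Polynomial.pairwise_coprime_X_sub_C` or `isCoprime` by hand, `X + C a = X - C (-a)`), so
  `∏ i, (X + C i)^m ∣ p` (`Finset.prod_dvd_of_coprime`, `IsCoprime.pow`); its degree is `n * m`,
  but `natDegree p ≤ m * (n - 1) < n * m` if `n > 0`.  If `n = 0`, `f` is a constant
  (`MvPolynomial.eq_C_of_isEmpty`), so the coefficient `m > 0` of `sub β f = C (C _)` vanishes.
-/

set_option autoImplicit false

namespace Pool.Agent.ROL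

open MvPolynomial

variable {F : Type*} [Field F] {n : ℕ}

theorem sub_C (β : Fin n → F) (a : F) : sub β (C a) = Polynomial.C (Polynomial.C a) := by
  unfold sub
  rw [aeval_C]
  rfl

private theorem Ord_sub_X (β : Fin n → F) (j : Fin n) : sub β (X j) =
    Polynomial.C (Polynomial.C (β j)) + Polynomial.X * Polynomial.C (pw (Polynomial.X : Polynomial F) j) := by
  unfold sub
  rw [aeval_X]

private theorem Ord_coeff_X (β : Fin n → F) (j : Fin n) (m : ℕ) : (sub β (X j)).coeff m =
    if m = 0 then Polynomial.C (β j) else if m = 1 then pw (Polynomial.X : Polynomial F) j else 0 := by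
  rw [Ord_sub_X, Polynomial.coeff_add, Polynomial.coeff_C]
  rcases m with _ | m
  · rw [Polynomial.coeff_X_mul_zero, if_pos rfl, if_pos rfl, add_zero]
  · rw [Polynomial.coeff_X_mul, Polynomial.coeff_C, if_neg (Nat.succ_ne_zero m), if_neg (Nat.succ_ne_zero m), zero_add]
    by_cases h : m = 0
    · rw [if_pos h, if_pos (by rw [h])]
    · rw [if_neg h, if_neg (by omega)]

/-- induction for the polynomials without the variable `i` -/
private theorem Ord_ind (β : Fin n → F) (i : Fin n) (p : Polynomial (Polynomial F) → Prop)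
    (hC : ∀ a, p (Polynomial.C (Polynomial.C a))) (hX : ∀ j, j ≠ i → p (sub β (X j)))
    (hadd : ∀ q r, p q → p r → p (q + r)) (hmul : ∀ q r, p q → p r → p (q * r))
    (f : MvPolynomial (Fin n) F) (hi : i ∉ f.vars) : p (sub β f) := by
  have h1 : f ∈ MvPolynomial.supported F ({i}ᶜ : Set (Fin n)) := by
    rw [MvPolynomial.mem_supported]
    intro j hj hji
    rw [Set.mem_singleton_iff] at hji
    subst hji
    exact hi hj
  unfold MvPolynomial.supported at h1
  clear hi
  induction h1 using Algebra.adjoin_induction with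
  | mem x hx =>
    obtain ⟨j, hj, rfl⟩ := hx
    exact hX j hj
  | algebraMap a =>
    have h2 : (algebraMap F (MvPolynomial (Fin n) F)) a = C a := rfl
    rw [h2, sub_C]
    exact hC a
  | add x y _ _ hx hy =>
    rw [map_add]
    exact hadd _ _ hx hy
  | mul x y _ _ hx hy =>
    rw [map_mul]
    exact hmul _ _ hx hy

theorem dvd_coeff (β : Fin n → F) (f : MvPolynomial (Fin n) F) (i : Fin n) (hi : i ∉ f.vars)
    (m : ℕ) : (Polynomial.X + Polynomial.C ((i : ℕ) : F)) ^ m ∣ (sub β f).coeff m := by
  refine Ord_ind β i (fun q => ∀ m, (Polynomial.X + Polynomial.C ((i : ℕ) : F)) ^ m ∣ q.coeff m)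
    (fun a m => ?_) (fun j hj m => ?_) (fun q r hq hr m => ?_) (fun q r hq hr m => ?_) f hi m
  · rw [Polynomial.coeff_C]
    split_ifs with h
    · rw [h, pow_zero]
      exact one_dvd _
    · exact dvd_zero _
  · rw [Ord_coeff_X]
    split_ifs with h h'
    · rw [h, pow_zero]
      exact one_dvd _
    · rw [h', pow_one]
      have h1 : Polynomial.X + Polynomial.C ((i : ℕ) : F) = (Polynomial.X : Polynomial F) + ((i : ℕ) : Polynomial F) := by
        rw [map_natCast]
      rw [h1]
      unfold pw
      exact Finset.dvd_prod_of_mem (fun j : Fin n => (Polynomial.X : Polynomial F) + ((j : ℕ) : Polynomial F))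
        (Finset.mem_erase.2 ⟨hj.symm, Finset.mem_univ i⟩)
    · exact dvd_zero _
  · rw [Polynomial.coeff_add]
    exact dvd_add (hq m) (hr m)
  · rw [Polynomial.coeff_mul]
    refine Finset.dvd_sum fun x hx => ?_
    rw [← Finset.HasAntidiagonal.mem_antidiagonal.1 hx, pow_add]
    exact mul_dvd_mul (hq _) (hr _)

private theorem Ord_deg_pw (j : Fin n) : (pw (Polynomial.X : Polynomial F) j).natDegree ≤ n - 1 := by
  unfold pw
  refine (Polynomial.natDegree_prod_le _ _).trans ?_
  refine (Finset.sum_le_card_nsmul _ _ 1 fun l _ => ?_).trans ?_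
  · have h1 : (Polynomial.X : Polynomial F) + ((l : ℕ) : Polynomial F) =
        Polynomial.X + Polynomial.C ((l : ℕ) : F) := by
      rw [map_natCast]
    show ((Polynomial.X : Polynomial F) + ((l : ℕ) : Polynomial F)).natDegree ≤ 1
    rw [h1]
    exact (Polynomial.natDegree_X_add_C _).le
  · rw [Finset.card_erase_of_mem (Finset.mem_univ j), Finset.card_univ, Fintype.card_fin, smul_eq_mul, mul_one]

theorem natDegree_coeff_le (β : Fin n → F) (f : MvPolynomial (Fin n) F) (m : ℕ) :
    ((sub β f).coeff m).natDegree ≤ m * (n - 1) := by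
  induction f using MvPolynomial.induction_on generalizing m with
  | C a =>
    rw [sub_C, Polynomial.coeff_C]
    split_ifs with h
    · rw [Polynomial.natDegree_C]
      exact Nat.zero_le _
    · rw [Polynomial.natDegree_zero]
      exact Nat.zero_le _
  | add p q hp hq =>
    rw [map_add, Polynomial.coeff_add]
    exact (Polynomial.natDegree_add_le _ _).trans (max_le (hp m) (hq m))
  | mul_X p j hp =>
    rw [map_mul, Polynomial.coeff_mul]
    refine Polynomial.natDegree_sum_le_of_forall_le _ _ fun x hx => ?_
    refine Polynomial.natDegree_mul_le.trans ?_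
    have h1 : ((sub β (X j)).coeff x.2).natDegree ≤ x.2 * (n - 1) := by
      rw [Ord_coeff_X]
      split_ifs with h h'
      · rw [Polynomial.natDegree_C]
        exact Nat.zero_le _
      · rw [h', one_mul]
        exact Ord_deg_pw j
      · rw [Polynomial.natDegree_zero]
        exact Nat.zero_le _
    have h2 := hp x.1
    rw [← Finset.HasAntidiagonal.mem_antidiagonal.1 hx, add_mul]
    exact add_le_add h2 h1

theorem exists_pole [CharZero F] (β : Fin n → F) (f : MvPolynomial (Fin n) F) {m : ℕ} (hm : 0 < m)
    (h : (sub β f).coeff m ≠ 0) :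
    ∃ i ∈ f.vars, ¬ (Polynomial.X + Polynomial.C ((i : ℕ) : F)) ^ m ∣ (sub β f).coeff m := by
  by_contra hcon
  push Not at hcon
  have h1 : ∀ i : Fin n, (Polynomial.X + Polynomial.C ((i : ℕ) : F)) ^ m ∣ (sub β f).coeff m := by
    intro i
    by_cases hi : i ∈ f.vars
    · exact hcon i hi
    · exact dvd_coeff β f i hi m
  have hinj : Function.Injective fun i : Fin n => -((i : ℕ) : F) := by
    intro i j hij
    exact Fin.ext (Nat.cast_injective (neg_injective hij))
  have h2 : (∏ i : Fin n, (Polynomial.X + Polynomial.C ((i : ℕ) : F)) ^ m) ∣ (sub β f).coeff m := by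
    refine Finset.prod_dvd_of_coprime ?_ fun i _ => h1 i
    intro i _ j _ hij
    have h3 := Polynomial.pairwise_coprime_X_sub_C hinj hij
    have h4 : IsCoprime (Polynomial.X + Polynomial.C ((i : ℕ) : F)) (Polynomial.X + Polynomial.C ((j : ℕ) : F)) := by
      have h5 : IsCoprime (Polynomial.X - Polynomial.C (-((i : ℕ) : F)))
          (Polynomial.X - Polynomial.C (-((j : ℕ) : F))) := h3
      rwa [map_neg, map_neg, sub_neg_eq_add, sub_neg_eq_add] at h5
    exact h4.pow
  have h6 := Polynomial.natDegree_le_of_dvd h2 h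
  rw [Polynomial.natDegree_prod_of_monic _ _ fun i _ => (Polynomial.monic_X_add_C _).pow m] at h6
  have h7 : ∀ i : Fin n, ((Polynomial.X + Polynomial.C ((i : ℕ) : F)) ^ m).natDegree = m := by
    intro i
    rw [(Polynomial.monic_X_add_C _).natDegree_pow, Polynomial.natDegree_X_add_C, mul_one]
  rw [Finset.sum_congr rfl fun i _ => h7 i, Finset.sum_const, Finset.card_univ, Fintype.card_fin, smul_eq_mul] at h6
  have h8 := h6.trans (natDegree_coeff_le β f m)
  rcases Nat.eq_zero_or_pos n with hn | hn
  · subst hn
    apply h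
    rw [MvPolynomial.eq_C_of_isEmpty f, sub_C, Polynomial.coeff_C, if_neg hm.ne']
  · rw [mul_comm] at h8
    have h9 := Nat.le_of_mul_le_mul_left h8 hm
    omega

end Pool.Agent.ROL
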